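import Pool.Agent.H82.EUC.Stmts5

/-!
Board `euc`, row TRN: transport to `Fin n`.
-/

set_option autoImplicit false

namespace Pool.EUC

theorem trn_pc (A : Type) (n : ℕ) (e : A ≃ Fin n) (σ : Equiv.Perm A) (x : Fin n) :
    e.symm ((e.permCongr σ) x) = σ (e.symm x) := by
  rw [Equiv.permCongr_apply, Equiv.symm_apply_apply]

theorem trn_pcs (A : Type) (n : ℕ) (e : A ≃ Fin n) (σ : Equiv.Perm A) (x : Fin n) :
    e.symm ((e.permCongr σ).symm x) = σ.symm (e.symm x) := by
  have h : (e.permCongr σ).symm x = e (σ.symm (e.symm x)) := by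
    rw [Equiv.symm_apply_eq, Equiv.permCongr_apply, Equiv.symm_apply_apply,
      Equiv.apply_symm_apply, Equiv.apply_symm_apply]
  rw [h, Equiv.symm_apply_apply]

theorem trn_stb (A : Type) (n : ℕ) (e : A ≃ Fin n) (dM dW : A → A → ℝ) (σ : Equiv.Perm A) :
    Stb dM dW σ ↔ Stb (fun m w => dM (e.symm m) (e.symm w))
      (fun w m => dW (e.symm w) (e.symm m)) (e.permCongr σ) := by
  unfold Stb
  constructor
  · intro h m w
    have := h (e.symm m) (e.symm w)
    rw [← trn_pc A n e σ m, ← trn_pcs A n e σ w] at this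
    exact this
  · intro h m w
    have := h (e m) (e w)
    simp only [trn_pc, trn_pcs, Equiv.symm_apply_apply] at this
    exact this

theorem trn_wle (A : Type) (n : ℕ) (e : A ≃ Fin n) (dW : A → A → ℝ) (σ τ : Equiv.Perm A) :
    WLe dW σ τ ↔ WLe (fun w m => dW (e.symm w) (e.symm m)) (e.permCongr σ) (e.permCongr τ) := by
  unfold WLe
  constructor
  · intro h w
    have := h (e.symm w)
    rw [← trn_pcs A n e σ w, ← trn_pcs A n e τ w] at this
    exact this
  · intro h w
    have := h (e w)
    simp only [trn_pcs, Equiv.symm_apply_apply] at this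
    exact this

theorem trn_thm : TRN_S := by
  intro A n e pM qM pW qW
  refine ⟨Equiv.subtypeEquiv e.permCongr (fun σ =>
    trn_stb A n e (fun m w => |pM m - qW w|) (fun w m => |pW w - qM m|) σ), ?_⟩
  intro σ τ
  exact trn_wle A n e (fun w m => |pW w - qM m|) σ.1 τ.1

end Pool.EUC
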